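import Pool.Agent.Helper92_SBG.Rd

/-!
# Squad SBG, module LWC: the lower bound
-/

set_option autoImplicit false

namespace Pool.Agent.SBG.H5

open Pool.Agent.SBG

/-- LWC. -/
theorem lwc (hbxl : BxlStmt) (hlwa : LwaStmt) (hlwb : LwbStmt) : LwcStmt := by
  classical
  intro k hk S hS
  obtain ⟨A, hA⟩ := hlwa k
  obtain ⟨C, hC⟩ := hbxl k hk S hS (max A 1)
  refine ⟨C, fun s hs => ?_⟩
  obtain ⟨p, hp, hp1, hp2⟩ := Nat.exists_prime_lt_and_le_two_mul (s ^ (68 * k + 23)) (by positivity)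
  obtain ⟨X, hX, h1, h2, h3⟩ := hA s hs p hp hp1 hp2
  have hs2 : 1 ≤ s ^ 2 := Nat.one_le_pow _ _ (by omega)
  have hpow : ∀ c : Jx k, (1 : ℤ) ≤ ((s ^ 2 : ℕ) : ℤ) ^ (wt c) := by
    intro c
    have : (1 : ℤ) ≤ ((s ^ 2 : ℕ) : ℤ) := by exact_mod_cast hs2
    exact one_le_pow₀ this
  have hword : ∀ x : W k, (∀ c, |x c| ≤ ((max A 1 : ℕ) : ℤ) * ((s ^ 2 : ℕ) : ℤ) ^ (wt c)) →
      wordNorm (S : Set (Gp k)) (⟨0, x⟩ : Gp k) ≤ C * s ^ 2 := fun x hx => hC (s ^ 2) hs2 x hx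
  have hz : wordNorm (S : Set (Gp k)) (⟨0, zin ![0, 1]⟩ : Gp k) ≤ C * s ^ 2 := by
    refine hword _ fun c => ?_
    have h4 : |(zin ![0, 1] : W k) c| ≤ 1 := by
      rcases c with c | j
      · simp [zin]
      · fin_cases j <;> simp [zin]
    have h5 : (1 : ℤ) ≤ ((max A 1 : ℕ) : ℤ) := by
      have : 1 ≤ max A 1 := le_max_right _ _
      exact_mod_cast this
    have h6 := hpow c
    nlinarith
  have hsub : subNorm (S : Set (Gp k)) (HX X) ≤ C * s ^ 2 := by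
    refine Nat.sInf_le ⟨X.image fun x => (⟨0, x⟩ : Gp k), ?_, ?_⟩
    · rw [Finset.coe_image]
      rfl
    · intro g hg
      rw [Finset.mem_image] at hg
      obtain ⟨x, hx, rfl⟩ := hg
      refine hword x fun c => (hX x hx c).trans ?_
      have h5 : (A : ℤ) ≤ ((max A 1 : ℕ) : ℤ) := by
        have : A ≤ max A 1 := le_max_left _ _
        exact_mod_cast this
      exact mul_le_mul_of_nonneg_right h5 (by linarith [hpow c])
  have hfg : (HX X).FG := by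
    refine ⟨X.image fun x => (⟨0, x⟩ : Gp k), ?_⟩
    rw [Finset.coe_image]
    rfl
  have hp2 : p ≠ 2 := by
    intro h
    rw [h] at hp1
    have h7 : 2 ^ 1 ≤ s ^ (68 * k + 23) :=
      (Nat.pow_le_pow_right (by norm_num) (by omega)).trans (Nat.pow_le_pow_left hs (68 * k + 23))
    omega
  have hd := hlwb k (s : ℤ) p hp hp2 (HX X) h1 h2
  have h8 : (s ^ ((68 * k + 23) * (16 * k + 5)) : ℕ) ≤ p ^ (16 * k + 5) := by
    rw [pow_mul]
    exact Nat.pow_le_pow_left hp1.le _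
  have h9 : ((s ^ ((68 * k + 23) * (16 * k + 5)) : ℕ) : ℕ∞) ≤ ((p ^ (16 * k + 5) : ℕ) : ℕ∞) := by
    exact_mod_cast h8
  refine h9.trans (hd.trans ?_)
  exact le_sSup ⟨HX X, _, h3, hfg, hsub, hz, rfl⟩

end Pool.Agent.SBG.H5
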